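import Pool.Agent.Helper14.WD.FIN

/-!
# Three degrees, with a one-dimensional top piece (from SPB and FIN)
-/

set_option autoImplicit false

open Matrix

namespace MT

theorem st_ONE (hSPB : ST_SPB) : ST_ONE := by
  intro K _ _ n ε ψ s a hT hbd htop hinner
  obtain ⟨p, hp⟩ := Finset.card_eq_one.mp htop
  have hps : s p = 1 := by
    have h1 : p ∈ Finset.univ.filter fun j => s j = 1 := by
      rw [hp]
      exact Finset.mem_singleton_self p
    exact (Finset.mem_filter.mp h1).2
  have hpu : ∀ j, s j = 1 → j = p := by
    intro j hj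
    have h1 : j ∈ Finset.univ.filter fun j => s j = 1 := Finset.mem_filter.mpr ⟨Finset.mem_univ j, hj⟩
    rw [hp] at h1
    exact Finset.mem_singleton.mp h1
  obtain ⟨hs1, hs2⟩ := hSPB K n ε ψ s a hT hbd ⟨p, hps⟩
  refine st_FIN K n ε ψ s a hT hbd ⟨p, hps⟩ hinner ?_ ?_
  · -- the rows
    intro M
    let Row : Submodule K (Fin n → K) :=
      { carrier := {r | ∃ A ∈ a, ∀ j, s j = 0 → A p j = r j}
        zero_mem' := ⟨0, a.zero_mem, fun j _ => rfl⟩
        add_mem' := by
          rintro r r' ⟨A, hA, h1⟩ ⟨A', hA', h2⟩
          exact ⟨A + A', a.add_mem hA hA', fun j hj => by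
            rw [Matrix.add_apply, h1 j hj, h2 j hj, Pi.add_apply]⟩
        smul_mem' := by
          rintro c r ⟨A, hA, h1⟩
          exact ⟨c • A, a.smul_mem c hA, fun j hj => by
            rw [Matrix.smul_apply, h1 j hj, Pi.smul_apply]⟩ }
    have hRow : Row = ⊤ := by
      by_contra hne
      obtain ⟨f, hf0, hf⟩ := Submodule.exists_le_ker_of_lt_top Row (lt_top_iff_ne_top.mpr hne)
      have hfsum : ∀ r : Fin n → K, f r = ∑ j, r j * f (Pi.single j 1) := by
        intro r
        conv_lhs => rw [← Finset.univ_sum_single r]
        rw [map_sum]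
        refine Finset.sum_congr rfl fun j _ => ?_
        have h1 : (Pi.single j (r j) : Fin n → K) = r j • Pi.single j 1 := by
          rw [← Pi.single_smul, smul_eq_mul, mul_one]
        rw [h1, map_smul, smul_eq_mul]
      have hv0 : ∀ j, f (Pi.single j 1) ≠ 0 → s j = 0 := by
        intro j hj
        by_contra hsj
        apply hj
        have h1 : (Pi.single j 1 : Fin n → K) ∈ Row := by
          refine ⟨0, a.zero_mem, fun i hi => ?_⟩
          have hij : i ≠ j := by
            rintro rfl
            exact hsj hi
          rw [Matrix.zero_apply, Pi.single_eq_of_ne hij]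
        exact hf h1
      have hv : (fun j => f (Pi.single j 1)) = 0 := by
        apply hs2 _ hv0
        intro A hA hA1
        ext i
        show ∑ j, A i j * f (Pi.single j 1) = (0 : Fin n → K) i
        rw [Pi.zero_apply]
        by_cases hi : s i = 1
        · have h1 : i = p := hpu i hi
          subst h1
          have h2 : (fun j => A i j) ∈ Row := ⟨A, hA, fun j _ => rfl⟩
          have h3 := hf h2
          rw [LinearMap.mem_ker, hfsum] at h3
          exact h3
        · apply Finset.sum_eq_zero
          intro j _
          by_cases hj : f (Pi.single j 1) = 0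
          · rw [hj, mul_zero]
          · have h1 := hv0 j hj
            have h2 : A i j = 0 := by
              rw [← hA1]
              exact if_neg (by omega)
            rw [h2, zero_mul]
      apply hf0
      ext j
      have h1 := congrFun hv j
      simpa using h1
    have hM : (fun j => M p j) ∈ Row := by
      rw [hRow]
      exact Submodule.mem_top
    obtain ⟨A, hA, hA2⟩ := hM
    refine ⟨A, hA, fun i j hi hj => ?_⟩
    rw [hpu i hi]
    exact hA2 j hj
  · -- the columns
    intro M
    let Col : Submodule K (Fin n → K) :=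
      { carrier := {r | ∃ A ∈ a, ∀ j, s j = 0 → A j p = r j}
        zero_mem' := ⟨0, a.zero_mem, fun j _ => rfl⟩
        add_mem' := by
          rintro r r' ⟨A, hA, h1⟩ ⟨A', hA', h2⟩
          exact ⟨A + A', a.add_mem hA hA', fun j hj => by
            rw [Matrix.add_apply, h1 j hj, h2 j hj, Pi.add_apply]⟩
        smul_mem' := by
          rintro c r ⟨A, hA, h1⟩
          exact ⟨c • A, a.smul_mem c hA, fun j hj => by
            rw [Matrix.smul_apply, h1 j hj, Pi.smul_apply]⟩ }
    have hle : Submodule.span K {u | ∃ A ∈ a, cmp s (-1) A = A ∧ ∃ x : Fin n → K,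
        (∀ j, x j ≠ 0 → s j = 1) ∧ u = A.mulVec x} ≤ Col := by
      rw [Submodule.span_le]
      rintro _ ⟨A, hA, hA1, x, hx, rfl⟩
      refine ⟨x p • A, a.smul_mem _ hA, fun j hj => ?_⟩
      show x p * A j p = ∑ l, A j l * x l
      rw [Finset.sum_eq_single p]
      · ring
      · intro l _ hl
        have h1 : x l = 0 := by
          by_contra h2
          exact hl (hpu l (hx l h2))
        rw [h1, mul_zero]
      · intro h1
        exact absurd (Finset.mem_univ p) h1
    have hM := hle (hs1 (fun j => if s j = 0 then M j p else 0) (by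
      intro j hj
      by_contra h1
      apply hj
      simp [h1]))
    obtain ⟨A, hA, hA2⟩ := hM
    refine ⟨A, hA, fun i j hi hj => ?_⟩
    rw [hpu j hj, hA2 i hi]
    exact if_pos hi

end MT
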